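import Mathlib
import Pool.Agent.W560.HP.Stm5

/-!
# HP-NRM: finite birational morphisms onto normal schemes are isomorphisms
-/

set_option autoImplicit false

open AlgebraicGeometry CategoryTheory

namespace Pool.Agent.W376.HP

/-- the algebraic part -/
theorem core {A B K L : Type} [CommRing A] [IsDomain A] [IsIntegrallyClosed A] [CommRing B]
    [CommRing K] [CommRing L] [Nontrivial L] (gA : A →+* K) (gB : B →+* L) (φ : A →+* B)
    (ψ : K →+* L) (hcomm : ∀ a, ψ (gA a) = gB (φ a)) (hgB : Function.Injective gB)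
    (hunit : ∀ a, a ≠ 0 → IsUnit (gA a)) (hfrac : ∀ r : K, ∃ a d, d ≠ 0 ∧ r * gA d = gA a)
    (hψ : Function.Surjective ψ) (hint : ∀ b, φ.IsIntegralElem b) : Function.Bijective φ := by
  have hz : ∀ a, ψ (gA a) = 0 → a = 0 := by
    intro a ha
    by_contra h
    have h1 := (hunit a h).map ψ
    rw [ha] at h1
    exact not_isUnit_zero h1
  have hψinj : Function.Injective ψ := by
    rw [injective_iff_map_eq_zero]
    intro k hk
    obtain ⟨a, d, hd, h1⟩ := hfrac k
    have h2 : ψ (gA a) = 0 := by rw [← h1, map_mul, hk, zero_mul]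
    rw [hz a h2, map_zero] at h1
    exact ((hunit d hd).mul_left_eq_zero).mp h1
  have hgA : Function.Injective gA := by
    rw [injective_iff_map_eq_zero]
    intro a ha
    exact hz a (by rw [ha, map_zero])
  constructor
  · rw [injective_iff_map_eq_zero]
    intro a ha
    exact hz a (by rw [hcomm, ha, map_zero])
  · intro b
    let _ : Algebra A K := gA.toAlgebra
    have hfr : IsFractionRing A K :=
      { map_units := fun y => hunit _ (nonZeroDivisors.ne_zero y.2)
        surj := fun r => by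
          obtain ⟨a, d, hd, h1⟩ := hfrac r
          exact ⟨(a, ⟨d, mem_nonZeroDivisors_of_ne_zero hd⟩), h1⟩
        exists_of_eq := fun {x y} h => ⟨1, by rw [hgA h]⟩ }
    obtain ⟨r, hr⟩ := hψ (gB b)
    obtain ⟨Q, hQ, hQb⟩ := hint b
    have h1 : ψ (Q.eval₂ gA r) = gB (Q.eval₂ φ b) := by
      rw [Polynomial.hom_eval₂, Polynomial.hom_eval₂, hr]
      congr 1
      ext a
      exact hcomm a
    rw [hQb, map_zero] at h1
    have h2 : Q.eval₂ gA r = 0 := hψinj (by rw [h1, map_zero])
    have h3 : IsIntegral A r := ⟨Q, hQ, h2⟩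
    obtain ⟨a, ha⟩ := IsIntegrallyClosed.isIntegral_iff.mp h3
    refine ⟨a, hgB ?_⟩
    rw [← hcomm, ← hr]
    exact congrArg ψ ha

/-- the stalk at the generic point as a ring of fractions -/
theorem stalk_frac (X : Scheme.{0}) [IsIntegral X] (U : X.Opens) (hU : IsAffineOpen U) (x : X)
    (hx : x = genericPoint X) (hxU : x ∈ U) :
    (∀ a : Γ(X, U), a ≠ 0 → IsUnit (X.presheaf.germ U x hxU a)) ∧
      ∀ r : X.presheaf.stalk x, ∃ a d : Γ(X, U), d ≠ 0 ∧
        r * X.presheaf.germ U x hxU d = X.presheaf.germ U x hxU a := by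
  subst hx
  have : Nonempty U := ⟨⟨_, hxU⟩⟩
  have := functionField_isFractionRing_of_isAffineOpen X U hU
  constructor
  · intro a ha
    have h1 : algebraMap Γ(X, U) X.functionField a ≠ 0 := by
      rwa [Ne, map_eq_zero_iff _ (IsFractionRing.injective Γ(X, U) X.functionField)]
    exact isUnit_iff_ne_zero.2 h1
  · intro r
    obtain ⟨a, d, hd, h1⟩ := IsFractionRing.div_surjective (A := Γ(X, U)) (K := X.functionField) r
    refine ⟨a, d, nonZeroDivisors.ne_zero hd, ?_⟩
    have h2 : algebraMap Γ(X, U) X.functionField d ≠ 0 := by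
      rw [Ne, map_eq_zero_iff _ (IsFractionRing.injective Γ(X, U) X.functionField)]
      exact nonZeroDivisors.ne_zero hd
    rw [← h1]
    exact div_mul_cancel₀ _ h2

/-- a surjective morphism maps the generic point to the generic point -/
theorem generic_map {X Y : Scheme.{0}} [IsIntegral X] [IsIntegral Y] (π : Y ⟶ X) [Surjective π] :
    π (genericPoint Y) = genericPoint X := by
  apply ((genericPoint_spec X).eq _).symm
  have h1 := (genericPoint_spec Y).image π.continuous
  rw [Set.image_univ, π.surjective.range_eq, closure_univ] at h1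
  exact h1

/-- sections over an affine open set of a normal scheme -/
theorem sec_closed (X : Scheme.{0}) [IsIntegral X] (U : X.Opens) (hU : IsAffineOpen U) [Nonempty U]
    (hX : ∀ x : X, IsIntegrallyClosed (X.presheaf.stalk x)) : IsIntegrallyClosed Γ(X, U) := by
  refine IsIntegrallyClosed.of_localization_maximal fun P _ _ => ?_
  let y : PrimeSpectrum Γ(X, U) := ⟨P, inferInstance⟩
  have hy : hU.fromSpec y ∈ U := by
    have h1 : Set.range hU.fromSpec = (U : Set X) := hU.range_fromSpec
    have h2 : hU.fromSpec y ∈ (U : Set X) := by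
      rw [← h1]
      exact ⟨_, rfl⟩
    exact h2
  let _ : Algebra Γ(X, U) (X.presheaf.stalk (hU.fromSpec y)) :=
    TopCat.Presheaf.algebra_section_stalk X.presheaf ⟨hU.fromSpec y, hy⟩
  have h1 : IsLocalization.AtPrime (X.presheaf.stalk (hU.fromSpec y)) P :=
    hU.isLocalization_stalk' y hy
  have h2 := hX (hU.fromSpec y)
  exact IsIntegrallyClosed.of_equiv (IsLocalization.algEquiv P.primeCompl
    (X.presheaf.stalk (hU.fromSpec y)) (Localization.AtPrime P)).toRingEquiv

theorem app_bij (X Y : Scheme.{0}) [IsIntegral X] [IsIntegral Y] (π : Y ⟶ X)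
    (hX : ∀ x : X, IsIntegrallyClosed (X.presheaf.stalk x)) [IsFinite π] [Surjective π]
    (hgen : Function.Surjective (π.stalkMap (genericPoint Y)).hom)
    (U : X.Opens) (hU : IsAffineOpen U) (x : X) (hxU : x ∈ U) :
    Function.Bijective (π.app U).hom := by
  have hneU : Nonempty U := ⟨⟨x, hxU⟩⟩
  have hxg := generic_map π
  have hgX : genericPoint X ∈ U :=
    ((genericPoint_spec X).mem_open_set_iff U.isOpen).mpr (by simpa using hneU)
  have hgU : π (genericPoint Y) ∈ U := by rw [hxg]; exact hgX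
  have hyV : genericPoint Y ∈ π ⁻¹ᵁ U := hgU
  have hneV : Nonempty (π ⁻¹ᵁ U) := ⟨⟨_, hyV⟩⟩
  obtain ⟨hX1, hX2⟩ := stalk_frac X U hU (π (genericPoint Y)) hxg hgU
  have hic := sec_closed X U hU hX
  have h1 : ∀ a : Γ(X, U), (π.stalkMap (genericPoint Y)).hom
      ((X.presheaf.germ U (π (genericPoint Y)) hgU).hom a) =
      (Y.presheaf.germ (π ⁻¹ᵁ U) (genericPoint Y) hyV).hom ((π.app U).hom a) := fun a =>
    Scheme.Hom.germ_stalkMap_apply π U (genericPoint Y) hgU a
  have h2 : Function.Injective (Y.presheaf.germ (π ⁻¹ᵁ U) (genericPoint Y) hyV).hom :=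
    germ_injective_of_isIntegral Y (genericPoint Y) hyV
  have h3 : ∀ b : Γ(Y, π ⁻¹ᵁ U), (π.app U).hom.IsIntegralElem b := fun b =>
    (π.finite_app U hU).to_isIntegral b
  have hdom : IsDomain Γ(X, U) := IsIntegral.component_integral _
  have h4 : ∀ a : Γ(X, U), a ≠ 0 → IsUnit ((X.presheaf.germ U (π (genericPoint Y)) hgU).hom a) := hX1
  have h5 : ∀ r : X.presheaf.stalk (π (genericPoint Y)), ∃ a d : Γ(X, U), d ≠ 0 ∧
        r * (X.presheaf.germ U (π (genericPoint Y)) hgU).hom d =
          (X.presheaf.germ U (π (genericPoint Y)) hgU).hom a := hX2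
  exact @core Γ(X, U) Γ(Y, π ⁻¹ᵁ U) (X.presheaf.stalk (π (genericPoint Y)))
    (Y.presheaf.stalk (genericPoint Y)) _ hdom hic _ _ _ _ _ _ _ _ h1 h2 h4 h5 hgen h3

theorem iso_res (X Y : Scheme.{0}) [IsIntegral X] [IsIntegral Y] (π : Y ⟶ X)
    (hX : ∀ x : X, IsIntegrallyClosed (X.presheaf.stalk x)) [IsFinite π] [Surjective π]
    (hgen : Function.Surjective (π.stalkMap (genericPoint Y)).hom)
    (U : X.Opens) (hU : IsAffineOpen U) (x : X) (hxU : x ∈ U) : IsIso (π ∣_ U) := by
  have h1 := app_bij X Y π hX hgen U hU x hxU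
  have h2 : IsIso (π.app U) := (ConcreteCategory.isIso_iff_bijective (π.app U)).mpr h1
  exact (isIso_morphismRestrict_iff_isIso_app π hU).mpr h2

theorem iso_of_res {X Y : Scheme.{0}} (π : Y ⟶ X)
    (h : ∀ x : X, ∃ U : X.Opens, x ∈ U ∧ IsIso (π ∣_ U)) : IsIso π :=
  IsZariskiLocalAtTarget.of_forall_exists_morphismRestrict
    (P := MorphismProperty.isomorphisms Scheme.{0}) (f := π) h

theorem nrm : W560.HP.S_NRM := by
  intro X Y hXi hYi π hX hfin hsurj hgen
  refine iso_of_res π fun x => ?_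
  obtain ⟨U, hU, hxU, -⟩ := exists_isAffineOpen_mem_and_subset (X := X) (x := x)
    (U := ⊤) trivial
  exact ⟨U, hxU, iso_res X Y π hX hgen U hU x hxU⟩

end Pool.Agent.W376.HP
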